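import Mathlib

set_option autoImplicit false

namespace Pool.Agent.Lib.MP_c85533_co

/-- `P` with rank function `rk` is an abstract `n`-polytope: least face of rank `-1`, greatest
face of rank `n`, every flag (maximal chain) has `n + 2` faces, diamond condition, and every
section of rank at least two is connected (any two proper faces of the section are joined by a
sequence of successively incident proper faces of the section). -/
structure IsPolytope (P : Type*) [PartialOrder P] [BoundedOrder P] (n : ℕ) (rk : P → ℤ) :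
    Prop where
  rk_bot : rk ⊥ = -1
  rk_top : rk ⊤ = n
  rk_strictMono : StrictMono rk
  flag_card : ∀ Φ : Flag P, (Φ : Set P).ncard = n + 2
  diamond : ∀ F G : P, F < G → rk G = rk F + 2 → (Set.Ioo F G).ncard = 2
  connected : ∀ F G : P, F < G → rk F + 3 ≤ rk G → ∀ H ∈ Set.Ioo F G, ∀ H' ∈ Set.Ioo F G,
    Relation.ReflTransGen
      (fun a b => a ∈ Set.Ioo F G ∧ b ∈ Set.Ioo F G ∧ (a ≤ b ∨ b ≤ a)) H H'

/-- The automorphism group acts transitively on flags. -/
def IsRegularPoset (P : Type*) [PartialOrder P] : Prop :=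
  ∀ Φ Ψ : Flag P, ∃ g : P ≃o P, Flag.map g Φ = Ψ

/-- `P` is isomorphic to its order dual. -/
def IsSelfDual (P : Type*) [PartialOrder P] : Prop :=
  Nonempty (P ≃o Pᵒᵈ)

/-- `P` is self-dual and, for a base flag `Φ` with distinguished generators `ρ i` (the flag
`ρ i Φ` shares with `Φ` exactly the faces of rank different from `i`), some automorphism `α`
satisfies `α ρ_i = ρ_(n-1-i) α` for all `i`. -/
def IsInternallySelfDual (P : Type*) [PartialOrder P] (n : ℕ) (rk : P → ℤ) : Prop :=
  IsSelfDual P ∧ ∃ (Φ : Flag P) (ρ : Fin n → (P ≃o P)) (α : P ≃o P),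
    (∀ i : Fin n, ∀ F ∈ Φ, (F ∈ Flag.map (ρ i) Φ ↔ rk F ≠ (i : ℕ))) ∧
    ∀ (i : Fin n) (F : P), α (ρ i F) = ρ (Fin.rev i) (α F)

/-- Some section `F / v`, with `v` a vertex and `F` a facet of the `n`-polytope `P`, is
isomorphic to `K`. -/
def HasMedialSection (P : Type*) [PartialOrder P] (n : ℕ) (rk : P → ℤ)
    (K : Type*) [PartialOrder K] : Prop :=
  ∃ v F : P, rk v = 0 ∧ rk F = n - 1 ∧ v < F ∧ Nonempty (Set.Icc v F ≃o K)

end Pool.Agent.Lib.MP_c85533_co
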