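import Mathlib
import Pool.Agent.Lib.MP_c85533_co.Defs

set_option autoImplicit false

namespace Pool.Agent.Lib.MP_c85533_co

open Set

variable {P : Type*} [PartialOrder P] [BoundedOrder P] {n : ℕ} {rk : P → ℤ}

namespace IsPolytope

theorem rk_le (h : IsPolytope P n rk) {a b : P} (hab : a ≤ b) : rk a ≤ rk b :=
  h.rk_strictMono.monotone hab

theorem rk_ge (h : IsPolytope P n rk) (a : P) : -1 ≤ rk a := by
  rw [← h.rk_bot]; exact h.rk_le bot_le

theorem rk_le_n (h : IsPolytope P n rk) (a : P) : rk a ≤ n := by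
  rw [← h.rk_top]; exact h.rk_le le_top

theorem eq_of_le_of_rk (h : IsPolytope P n rk) {a b : P} (hab : a ≤ b) (hr : rk b ≤ rk a) :
    a = b := by
  by_contra hne
  have := h.rk_strictMono (lt_of_le_of_ne hab hne)
  omega

theorem lt_of_le_of_rk (_h : IsPolytope P n rk) {a b : P} (hab : a ≤ b) (hr : rk a < rk b) :
    a < b := by
  refine lt_of_le_of_ne hab ?_
  rintro rfl
  omega

theorem flag_le (h : IsPolytope P n rk) {Φ : Flag P} {a b : P} (ha : a ∈ Φ) (hb : b ∈ Φ)
    (hr : rk a ≤ rk b) : a ≤ b := by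
  rcases Φ.le_or_le ha hb with h1 | h1
  · exact h1
  · exact (h.eq_of_le_of_rk h1 hr).ge

theorem flag_eq (h : IsPolytope P n rk) {Φ : Flag P} {a b : P} (ha : a ∈ Φ) (hb : b ∈ Φ)
    (hr : rk a = rk b) : a = b :=
  le_antisymm (h.flag_le ha hb hr.le) (h.flag_le hb ha hr.ge)

theorem exists_rank (h : IsPolytope P n rk) (Φ : Flag P) {i : ℤ} (h1 : -1 ≤ i) (h2 : i ≤ n) :
    ∃ a ∈ Φ, rk a = i := by
  have hinj : InjOn rk (Φ : Set P) := fun a ha b hb hr => h.flag_eq ha hb hr
  have hsub : rk '' (Φ : Set P) ⊆ Icc (-1 : ℤ) n := by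
    rintro _ ⟨a, -, rfl⟩
    exact ⟨h.rk_ge a, h.rk_le_n a⟩
  have hc : (Icc (-1 : ℤ) n).ncard = n + 2 := by
    rw [← Finset.coe_Icc, Set.ncard_coe_finset, Int.card_Icc]
    omega
  have heq : rk '' (Φ : Set P) = Icc (-1 : ℤ) n := by
    apply Set.eq_of_subset_of_ncard_le hsub _ (Set.finite_Icc _ _)
    rw [hc, hinj.ncard_image, h.flag_card]
  have : i ∈ rk '' (Φ : Set P) := by rw [heq]; exact ⟨h1, h2⟩
  obtain ⟨a, ha, hr⟩ := this
  exact ⟨a, ha, hr⟩

theorem exists_ge_rank (h : IsPolytope P n rk) (a : P) {i : ℤ} (h1 : rk a ≤ i) (h2 : i ≤ n) :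
    ∃ b, a ≤ b ∧ rk b = i := by
  obtain ⟨Φ, hΦ⟩ := Flag.exists_mem a
  obtain ⟨b, hb, hr⟩ := h.exists_rank Φ ((h.rk_ge a).trans h1) h2
  exact ⟨b, h.flag_le hΦ hb (by omega), hr⟩

theorem exists_le_rank (h : IsPolytope P n rk) (a : P) {i : ℤ} (h1 : -1 ≤ i) (h2 : i ≤ rk a) :
    ∃ b, b ≤ a ∧ rk b = i := by
  obtain ⟨Φ, hΦ⟩ := Flag.exists_mem a
  obtain ⟨b, hb, hr⟩ := h.exists_rank Φ h1 (h2.trans (h.rk_le_n a))
  exact ⟨b, h.flag_le hb hΦ (by omega), hr⟩

theorem rk_map_ge (h : IsPolytope P n rk) (g : P ≃o P) (k : ℕ) :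
    ∀ a : P, rk a = (k : ℤ) - 1 → rk a ≤ rk (g a) := by
  induction k with
  | zero => intro a ha; have := h.rk_ge (g a); omega
  | succ k ih =>
    intro a ha
    obtain ⟨b, hb, hr⟩ := h.exists_le_rank a (i := (k : ℤ) - 1) (by omega) (by push_cast at ha; omega)
    have hlt : b < a := h.lt_of_le_of_rk hb (by push_cast at ha; omega)
    have h1 := h.rk_strictMono (g.strictMono hlt)
    have h2 := ih b hr
    push_cast at ha
    omega

theorem rk_map (h : IsPolytope P n rk) (g : P ≃o P) (a : P) : rk (g a) = rk a := by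
  have key : ∀ (g : P ≃o P) (a : P), rk a ≤ rk (g a) := by
    intro g a
    have := h.rk_ge a
    exact h.rk_map_ge g (rk a + 1).toNat a (by omega)
  have h1 := key g a
  have h2 := key g.symm (g a)
  rw [g.symm_apply_apply] at h2
  omega

/-- An automorphism fixing a flag of a section fixes the section pointwise. -/
theorem rigid (h : IsPolytope P n rk) (σ : P ≃o P) (k : ℕ) :
    ∀ (F G : P) (Φ : Flag P), F ∈ Φ → G ∈ Φ → F ≤ G → rk G ≤ rk F + k →
      (∀ a ∈ Φ, F ≤ a → a ≤ G → σ a = a) → ∀ x, F ≤ x → x ≤ G → σ x = x := by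
  induction k with
  | zero =>
    intro F G Φ hF hG hFG hr hfix x hx1 hx2
    have h1 : x = G := h.eq_of_le_of_rk hx2 (by have := h.rk_le hx1; push_cast at hr; omega)
    rw [h1]; exact hfix G hG hFG le_rfl
  | succ k ih =>
    intro F G Φ hF hG hFG hr hfix x hx1 hx2
    have hσF : σ F = F := hfix F hF le_rfl hFG
    have hσG : σ G = G := hfix G hG hFG le_rfl
    rcases hx1.eq_or_lt with rfl | hx1'
    · exact hσF
    rcases hx2.eq_or_lt with rfl | hx2'
    · exact hσG
    have r1 := h.rk_strictMono hx1'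
    have r2 := h.rk_strictMono hx2'
    obtain ⟨m, hm, hrm⟩ := h.exists_rank Φ (i := rk F + 1) (by have := h.rk_ge F; omega)
      (by have := h.rk_le_n G; omega)
    have hm1 : F < m := h.lt_of_le_of_rk (h.flag_le hF hm (by omega)) (by omega)
    have hm2 : m < G := h.lt_of_le_of_rk (h.flag_le hm hG (by omega)) (by omega)
    have hσm : σ m = m := hfix m hm hm1.le hm2.le
    have hlt : F < G := hx1'.trans hx2'
    by_cases h2 : rk G = rk F + 2
    · obtain ⟨a, b, hab, hs⟩ := Set.ncard_eq_two.mp (h.diamond F G hlt h2)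
      have e1 : x ∈ ({a, b} : Set P) := by rw [← hs]; exact ⟨hx1', hx2'⟩
      have e2 : m ∈ ({a, b} : Set P) := by rw [← hs]; exact ⟨hm1, hm2⟩
      have e3 : σ x ∈ ({a, b} : Set P) := by
        rw [← hs]
        exact ⟨by rw [← hσF]; exact σ.strictMono hx1', by rw [← hσG]; exact σ.strictMono hx2'⟩
      by_cases hxm : x = m
      · rw [hxm]; exact hσm
      have e4 : σ x ≠ m := by
        intro e; apply hxm; apply σ.injective; rw [e, hσm]
      simp only [mem_insert_iff, mem_singleton_iff] at e1 e2 e3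
      rcases e1 with e1 | e1 <;> rcases e2 with e2 | e2 <;> rcases e3 with e3 | e3 <;>
        simp_all
    · have good : ∀ (Ψ : Flag P) (a : P), F ∈ Ψ → G ∈ Ψ → a ∈ Ψ → F < a → a < G →
          (∀ c ∈ Ψ, F ≤ c → c ≤ G → σ c = c) →
          (∀ y, F ≤ y → y ≤ a → σ y = y) ∧ (∀ y, a ≤ y → y ≤ G → σ y = y) := by
        intro Ψ a hFΨ hGΨ haΨ ha1 ha2 hf
        have s1 := h.rk_strictMono ha1
        have s2 := h.rk_strictMono ha2
        push_cast at hr
        exact ⟨ih F a Ψ hFΨ haΨ ha1.le (by omega) (fun c hc c1 c2 => hf c hc c1 (c2.trans ha2.le)),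
          ih a G Ψ haΨ hGΨ ha2.le (by omega) (fun c hc c1 c2 => hf c hc (ha1.le.trans c1) c2)⟩
      have hc := h.connected F G hlt (by omega) m ⟨hm1, hm2⟩ x ⟨hx1', hx2'⟩
      have key : ∀ b, Relation.ReflTransGen
          (fun a b => a ∈ Set.Ioo F G ∧ b ∈ Set.Ioo F G ∧ (a ≤ b ∨ b ≤ a)) m b →
          (∀ y, F ≤ y → y ≤ b → σ y = y) ∧ (∀ y, b ≤ y → y ≤ G → σ y = y) := by
        intro b hb
        induction hb with
        | refl => exact good Φ m hF hG hm hm1 hm2 hfix
        | @tail a b _ hab iha =>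
          obtain ⟨ha, hb, hab⟩ := hab
          have hch : IsChain (· ≤ ·) ({F, a, b, G} : Set P) := by
            intro u hu w hw _
            simp only [mem_insert_iff, mem_singleton_iff] at hu hw
            have q1 := ha.1.le
            have q2 := ha.2.le
            have q3 := hb.1.le
            have q4 := hb.2.le
            rcases hu with rfl | rfl | rfl | rfl <;> rcases hw with rfl | rfl | rfl | rfl <;>
              first | (left; assumption) | (right; assumption) | (left; exact le_rfl) | exact hab | exact hab.symm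
          obtain ⟨Ψ, hΨ⟩ := hch.exists_subset_flag
          have haΨ : a ∈ Ψ := hΨ (by simp)
          refine good Ψ b (hΨ (by simp)) (hΨ (by simp)) (hΨ (by simp)) hb.1 hb.2 ?_
          intro c hc c1 c2
          rcases Ψ.le_or_le hc haΨ with h3 | h3
          · exact iha.1 c c1 h3
          · exact iha.2 c h3 c2
      exact (key x hc).1 x hx1 le_rfl

end IsPolytope

/-- All medial sections are flat. -/
def AllFlat (n : ℕ) (rk : P → ℤ) : Prop :=
  ∀ v F e r : P, rk v = 0 → rk F = n - 1 → rk e = 1 → rk r = n - 2 → v ≤ e → e ≤ F → v ≤ r →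
    r ≤ F → e ≤ r

namespace IsPolytope

theorem edge_facets (h : IsPolytope P n rk) (hf : AllFlat n rk) {v e : P} (hv : rk v = 0)
    (he : rk e = 1) (hve : v ≤ e) (k : ℕ) :
    ∀ H : P, v ≤ H → (n : ℤ) - 1 - k ≤ rk H → ∀ F F' : P, rk F = n - 1 → rk F' = n - 1 →
      H ≤ F → H ≤ F' → e ≤ F → e ≤ F' := by
  induction k with
  | zero =>
    intro H _ hr F F' hF hF' h1 h2 h3
    push_cast at hr
    rw [← h.eq_of_le_of_rk h2 (by omega), h.eq_of_le_of_rk h1 (by omega)]
    exact h3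
  | succ k ih =>
    intro H hvH hr F F' hF hF' h1 h2 h3
    push_cast at hr
    by_cases hc : (n : ℤ) - 1 - k ≤ rk H
    · exact ih H hvH hc F F' hF hF' h1 h2 h3
    by_cases hk : k = 0
    · subst hk
      exact (hf v F e H hv hF he (by omega) hve h3 hvH h1).trans h2
    have hHt : H < ⊤ := h.lt_of_le_of_rk le_top (by rw [h.rk_top]; omega)
    have m1 : F ∈ Ioo H ⊤ := ⟨h.lt_of_le_of_rk h1 (by omega),
      h.lt_of_le_of_rk le_top (by rw [h.rk_top]; omega)⟩
    have m2 : F' ∈ Ioo H ⊤ := ⟨h.lt_of_le_of_rk h2 (by omega),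
      h.lt_of_le_of_rk le_top (by rw [h.rk_top]; omega)⟩
    have hcon := h.connected H ⊤ hHt (by rw [h.rk_top]; omega) F m1 F' m2
    have key : ∀ b, Relation.ReflTransGen
        (fun a b => a ∈ Set.Ioo H ⊤ ∧ b ∈ Set.Ioo H ⊤ ∧ (a ≤ b ∨ b ≤ a)) F b →
        ∀ G : P, rk G = n - 1 → b ≤ G → e ≤ G := by
      intro b hb
      induction hb with
      | refl =>
        intro G hG hFG
        rw [← h.eq_of_le_of_rk hFG (by omega)]; exact h3
      | @tail a b _ hab iha =>
        obtain ⟨ha, hb, hab⟩ := hab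
        intro G hG hbG
        rcases hab with hab | hab
        · exact iha G hG (hab.trans hbG)
        · have s1 := h.rk_strictMono ha.2
          rw [h.rk_top] at s1
          obtain ⟨G', hG1, hG2⟩ := h.exists_ge_rank a (i := n - 1) (by omega) (by omega)
          have s2 := h.rk_strictMono hb.1
          exact ih b (hvH.trans hb.1.le) (by omega) G' G hG2 hG (hab.trans hG1) hbG
            (iha G' hG2 hG1)
    exact key F' hcon F' hF' le_rfl

theorem edge_le_facet_of_vertex (h : IsPolytope P n rk) (hn : 2 ≤ n) (hf : AllFlat n rk)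
    {v e F : P} (hv : rk v = 0) (he : rk e = 1) (hve : v ≤ e) (hF : rk F = n - 1) (hvF : v ≤ F) :
    e ≤ F := by
  obtain ⟨G, hG1, hG2⟩ := h.exists_ge_rank e (i := n - 1) (by omega) (by omega)
  exact h.edge_facets hf hv he hve n v le_rfl (by omega) G F hG2 hF (hve.trans hG1) hvF hG1

theorem vertices_le (h : IsPolytope P n rk) (hn : 2 ≤ n) (hf : AllFlat n rk) {F : P}
    (hF : rk F = n - 1) (k : ℕ) :
    ∀ H : P, rk H ≤ k → ∀ v v' : P, rk v = 0 → rk v' = 0 → v ≤ H → v' ≤ H → v ≤ F → v' ≤ F := by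
  induction k with
  | zero =>
    intro H hr v v' hv hv' h1 h2 h3
    push_cast at hr
    rw [h.eq_of_le_of_rk h2 (by omega), ← h.eq_of_le_of_rk h1 (by omega)]
    exact h3
  | succ k ih =>
    intro H hr v v' hv hv' h1 h2 h3
    push_cast at hr
    by_cases hc : rk H ≤ k
    · exact ih H hc v v' hv hv' h1 h2 h3
    by_cases hk : k = 0
    · subst hk
      exact h2.trans (h.edge_le_facet_of_vertex hn hf hv (by omega) h1 hF h3)
    have hHt : ⊥ < H := h.lt_of_le_of_rk bot_le (by rw [h.rk_bot]; omega)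
    have m1 : v ∈ Ioo ⊥ H := ⟨h.lt_of_le_of_rk bot_le (by rw [h.rk_bot]; omega),
      h.lt_of_le_of_rk h1 (by omega)⟩
    have m2 : v' ∈ Ioo ⊥ H := ⟨h.lt_of_le_of_rk bot_le (by rw [h.rk_bot]; omega),
      h.lt_of_le_of_rk h2 (by omega)⟩
    have hcon := h.connected ⊥ H hHt (by rw [h.rk_bot]; omega) v m1 v' m2
    have key : ∀ b, Relation.ReflTransGen
        (fun a b => a ∈ Set.Ioo ⊥ H ∧ b ∈ Set.Ioo ⊥ H ∧ (a ≤ b ∨ b ≤ a)) v b →
        ∀ w : P, rk w = 0 → w ≤ b → w ≤ F := by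
      intro b hb
      induction hb with
      | refl =>
        intro w hw hwv
        rw [h.eq_of_le_of_rk hwv (by omega)]; exact h3
      | @tail a b _ hab iha =>
        obtain ⟨ha, hb, hab⟩ := hab
        intro w hw hwb
        rcases hab with hab | hab
        · have s1 := h.rk_strictMono ha.1
          rw [h.rk_bot] at s1
          obtain ⟨w', hw1, hw2⟩ := h.exists_le_rank a (i := 0) (by omega) (by omega)
          have s2 := h.rk_strictMono hb.2
          exact ih b (by omega) w' w hw2 hw (hw1.trans hab) hwb (iha w' hw2 hw1)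
        · exact iha w hw (hwb.trans hab)
    exact key v' hcon v' hv' le_rfl

theorem edge_le_facet (h : IsPolytope P n rk) (hn : 2 ≤ n) (hf : AllFlat n rk) {e F : P}
    (he : rk e = 1) (hF : rk F = n - 1) : e ≤ F := by
  obtain ⟨v, hv1, hv2⟩ := h.exists_le_rank e (i := 0) (by omega) (by omega)
  obtain ⟨w, hw1, hw2⟩ := h.exists_le_rank F (i := 0) (by omega) (by omega)
  have := h.vertices_le hn hf hF n ⊤ (by rw [h.rk_top]) w v hw2 hv2 le_top le_top hw1
  exact h.edge_le_facet_of_vertex hn hf hv2 he hv1 hF this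

theorem allFlat_of_medial (h : IsPolytope P n rk) (hreg : IsRegularPoset P)
    {K : Type*} [PartialOrder K] [BoundedOrder K]
    (hK : ∀ a b : K, ⊥ ⋖ a → b ⋖ ⊤ → a ≤ b) (hm : HasMedialSection P n rk K) :
    AllFlat n rk := by
  obtain ⟨v₀, F₀, hv₀, hF₀, hlt, ⟨φ⟩⟩ := hm
  have base : ∀ e r : P, rk e = 1 → rk r = n - 2 → v₀ ≤ e → e ≤ F₀ → v₀ ≤ r → r ≤ F₀ → e ≤ r := by
    intro e r he hr h1 h2 h3 h4
    have hb : φ ⟨v₀, le_rfl, hlt.le⟩ = ⊥ := by
      apply le_bot_iff.mp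
      rw [← φ.apply_symm_apply ⊥]
      exact φ.monotone (φ.symm ⊥).2.1
    have ht : φ ⟨F₀, hlt.le, le_rfl⟩ = ⊤ := by
      apply top_le_iff.mp
      rw [← φ.apply_symm_apply ⊤]
      exact φ.monotone (φ.symm ⊤).2.2
    have c1 : (⊥ : K) ⋖ φ ⟨e, h1, h2⟩ := by
      rw [← hb]
      refine ⟨φ.strictMono (show v₀ < e from h.lt_of_le_of_rk h1 (by omega)), ?_⟩
      intro c hc1 hc2
      rw [← φ.apply_symm_apply c] at hc1 hc2
      have s1 := h.rk_strictMono (show v₀ < (φ.symm c).1 from φ.lt_iff_lt.mp hc1)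
      have s2 := h.rk_strictMono (show (φ.symm c).1 < e from φ.lt_iff_lt.mp hc2)
      omega
    have c2 : φ ⟨r, h3, h4⟩ ⋖ (⊤ : K) := by
      rw [← ht]
      refine ⟨φ.strictMono (show r < F₀ from h.lt_of_le_of_rk h4 (by omega)), ?_⟩
      intro c hc1 hc2
      rw [← φ.apply_symm_apply c] at hc1 hc2
      have s1 := h.rk_strictMono (show r < (φ.symm c).1 from φ.lt_iff_lt.mp hc1)
      have s2 := h.rk_strictMono (show (φ.symm c).1 < F₀ from φ.lt_iff_lt.mp hc2)
      omega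
    exact φ.le_iff_le.mp (hK _ _ c1 c2)
  intro v F e r hv hF he hr h1 h2 h3 h4
  obtain ⟨Φ, hΦ1, hΦ2⟩ := Flag.exists_mem_mem (h1.trans h2)
  obtain ⟨Ψ, hΨ1, hΨ2⟩ := Flag.exists_mem_mem hlt.le
  obtain ⟨g, hg⟩ := hreg Φ Ψ
  have hmem : ∀ a ∈ Φ, g a ∈ Ψ := by
    intro a ha
    rw [← hg]
    exact (⟨a, ha, rfl⟩ : g a ∈ g '' (Φ : Set P))
  have e1 : g v = v₀ := h.flag_eq (hmem v hΦ1) hΨ1 (by rw [h.rk_map, hv, hv₀])
  have e2 : g F = F₀ := h.flag_eq (hmem F hΦ2) hΨ2 (by rw [h.rk_map, hF, hF₀])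
  apply g.le_iff_le.mp
  apply base
  · rw [h.rk_map, he]
  · rw [h.rk_map, hr]
  · rw [← e1]; exact g.monotone h1
  · rw [← e2]; exact g.monotone h2
  · rw [← e1]; exact g.monotone h3
  · rw [← e2]; exact g.monotone h4

/-- A regular polytope of rank at least two with a flat medial section is not internally
self-dual. -/
theorem not_internallySelfDual (h : IsPolytope P n rk) (hn : 2 ≤ n) (hreg : IsRegularPoset P)
    {K : Type*} [PartialOrder K] [BoundedOrder K]
    (hK : ∀ a b : K, ⊥ ⋖ a → b ⋖ ⊤ → a ≤ b) (hm : HasMedialSection P n rk K) :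
    ¬ IsInternallySelfDual P n rk := by
  rintro ⟨-, Φ, ρ, α, hρ, hα⟩
  have hf := h.allFlat_of_medial hreg hK hm
  have fixiff : ∀ (i : Fin n), ∀ F ∈ Φ, (ρ i F = F ↔ rk F ≠ (i : ℕ)) := by
    intro i F hF
    rw [← hρ i F hF]
    constructor
    · intro e
      exact (⟨F, hF, e⟩ : F ∈ ρ i '' (Φ : Set P))
    · intro hm
      obtain ⟨G, hG, e⟩ : F ∈ ρ i '' (Φ : Set P) := hm
      have : G = F := h.flag_eq hG hF (by rw [← e, h.rk_map])
      rw [this] at e
      exact e
  let i0 : Fin n := ⟨0, by omega⟩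
  obtain ⟨e, he, hre⟩ := h.exists_rank Φ (i := 1) (by omega) (by omega)
  have fix0 : ∀ x, e ≤ x → ρ i0 x = x := by
    intro x hx
    refine h.rigid (ρ i0) n e ⊤ Φ he Φ.top_mem le_top (by rw [h.rk_top]; omega) ?_ x hx le_top
    intro a ha h1 _
    apply (fixiff i0 a ha).mpr
    have := h.rk_le h1
    simp only [i0]
    omega
  obtain ⟨F, hF, hrF⟩ := h.exists_rank Φ (i := n - 1) (by omega) (by omega)
  have h1 : rk (α.symm F) = n - 1 := by rw [h.rk_map, hrF]
  have h2 := hα i0 (α.symm F)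
  rw [fix0 _ (h.edge_le_facet hn hf hre h1), α.apply_symm_apply] at h2
  have h3 := (fixiff (Fin.rev i0) F hF).mp h2.symm
  apply h3
  rw [hrF, Fin.val_rev]
  simp only [i0]
  omega

end IsPolytope

end Pool.Agent.Lib.MP_c85533_co
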