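import Mathlib
import Pool.Agent.Lib.MP_c85533_co.Flat

set_option autoImplicit false

namespace Pool.Agent.Lib.MP_c85533_co

open Set

/-- In a bounded poset with a strictly monotone rank function without jumps, each flag meets
every rank. -/
theorem exists_rank_of_dense {P : Type*} [PartialOrder P] [BoundedOrder P] {n : ℕ} {rk : P → ℤ}
    (hb : rk ⊥ = -1) (ht : rk ⊤ = n) (hm : StrictMono rk)
    (hd : ∀ F G : P, F < G → rk F + 2 ≤ rk G → ∃ H, F < H ∧ H < G) (Φ : Flag P) {i : ℤ}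
    (h1 : -1 ≤ i) (h2 : i ≤ n) : ∃ a ∈ Φ, rk a = i := by
  have hge : ∀ a, -1 ≤ rk a := fun a => hb ▸ hm.monotone bot_le
  have hle : ∀ a, rk a ≤ n := fun a => ht ▸ hm.monotone le_top
  obtain ⟨x, ⟨F, hF, hFx, hFi⟩, hmax⟩ := Int.exists_greatest_of_bdd
    (P := fun x => ∃ a ∈ Φ, rk a = x ∧ x ≤ i) ⟨i, fun z ⟨_, _, _, h⟩ => h⟩
    ⟨-1, ⊥, Φ.bot_mem, hb, h1⟩
  obtain ⟨y, ⟨G, hG, hGy, hGi⟩, hmin⟩ := Int.exists_least_of_bdd
    (P := fun x => ∃ a ∈ Φ, rk a = x ∧ i ≤ x) ⟨i, fun z ⟨_, _, _, h⟩ => h⟩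
    ⟨n, ⊤, Φ.top_mem, ht, h2⟩
  by_cases e1 : x = i
  · exact ⟨F, hF, hFx.trans e1⟩
  by_cases e2 : y = i
  · exact ⟨G, hG, hGy.trans e2⟩
  exfalso
  have cmp : ∀ a ∈ Φ, ∀ b ∈ Φ, rk a ≤ rk b → a ≤ b := by
    intro a ha b hb' hr
    rcases Φ.le_or_le ha hb' with h | h
    · exact h
    · rcases h.eq_or_lt with h | h
      · exact h.ge
      · have := hm h; omega
  have hFG : F < G := by
    refine lt_of_le_of_ne (cmp F hF G hG (by omega)) ?_
    rintro rfl
    omega
  obtain ⟨H, hH1, hH2⟩ := hd F G hFG (by omega)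
  have hH : H ∈ Φ := by
    rw [Flag.mem_iff_forall_le_or_ge]
    intro b hb'
    by_cases hc : rk b ≤ i
    · right
      have := hmax (rk b) ⟨b, hb', rfl, hc⟩
      exact (cmp b hb' F hF (by omega)).trans hH1.le
    · left
      have := hmin (rk b) ⟨b, hb', rfl, by omega⟩
      exact hH2.le.trans (cmp G hG b hb' (by omega))
  have s1 := hm hH1
  have s2 := hm hH2
  by_cases hc : rk H ≤ i
  · have := hmax (rk H) ⟨H, hH, rfl, hc⟩; omega
  · have := hmin (rk H) ⟨H, hH, rfl, by omega⟩; omega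

theorem flag_card_of_dense {P : Type*} [PartialOrder P] [BoundedOrder P] {n : ℕ} {rk : P → ℤ}
    (hb : rk ⊥ = -1) (ht : rk ⊤ = n) (hm : StrictMono rk)
    (hd : ∀ F G : P, F < G → rk F + 2 ≤ rk G → ∃ H, F < H ∧ H < G) (Φ : Flag P) :
    (Φ : Set P).ncard = n + 2 := by
  have hge : ∀ a, -1 ≤ rk a := fun a => hb ▸ hm.monotone bot_le
  have hle : ∀ a, rk a ≤ n := fun a => ht ▸ hm.monotone le_top
  have hinj : InjOn rk (Φ : Set P) := by
    intro a ha b hb' hr
    rcases Φ.le_or_le ha hb' with h | h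
    · rcases h.eq_or_lt with h | h
      · exact h
      · have := hm h; omega
    · rcases h.eq_or_lt with h | h
      · exact h.symm
      · have := hm h; omega
  have heq : rk '' (Φ : Set P) = Icc (-1 : ℤ) n := by
    apply Subset.antisymm
    · rintro _ ⟨a, -, rfl⟩
      exact ⟨hge a, hle a⟩
    · intro i hi
      obtain ⟨a, ha, hr⟩ := exists_rank_of_dense hb ht hm hd Φ hi.1 hi.2
      exact ⟨a, ha, hr⟩
  rw [← hinj.ncard_image, heq, ← Finset.coe_Icc, Set.ncard_coe_finset, Int.card_Icc]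
  omega

/-- Faces of the toroidal map of type `{4,4}` with four vertices: `0` is the least face, `17` the
greatest, and `1 + 4 a + b` is the point `(a, b)` of `(Z/4)^2`, whose rank is the number of odd
coordinates. -/
def T : Type := Fin 18

instance : DecidableEq T := inferInstanceAs (DecidableEq (Fin 18))
instance : Fintype T := inferInstanceAs (Fintype (Fin 18))

def cle (a b : ℕ) : Bool := a == b || (a % 2 == 0 && b % 2 == 1)

def tle (x y : Fin 18) : Bool :=
  x.val == 0 || y.val == 17 ||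
    (x.val != 17 && y.val != 0 && cle ((x.val - 1) / 4) ((y.val - 1) / 4) &&
      cle ((x.val - 1) % 4) ((y.val - 1) % 4))

instance : PartialOrder T where
  le x y := tle x y = true
  le_refl := by decide +kernel
  le_trans := by decide +kernel
  le_antisymm := by decide +kernel

instance : DecidableLE T := fun x y => inferInstanceAs (Decidable (tle x y = true))
instance : DecidableLT T := fun x y => decidable_of_iff (x ≤ y ∧ ¬ y ≤ x) lt_iff_le_not_ge.symm

instance : BoundedOrder T where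
  top := (17 : Fin 18)
  le_top := by decide +kernel
  bot := (0 : Fin 18)
  bot_le := by decide +kernel

def trk (x : T) : ℤ :=
  if x.val = 0 then -1 else if x.val = 17 then 3
  else (((x.val - 1) / 4 % 2 + (x.val - 1) % 4 % 2 : ℕ) : ℤ)

/-- swap the two even (`p`) and/or the two odd (`q`) residues mod 4 -/
def sw (p q : Bool) (a : ℕ) : ℕ :=
  if a % 2 = 0 then (if p then (a + 2) % 4 else a) else (if q then (a + 2) % 4 else a)

def autF (s p q p' q' : Bool) (x : T) : T :=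
  if x.val = 0 then x else if x.val = 17 then x else
    let a := sw p q ((x.val - 1) / 4)
    let b := sw p' q' ((x.val - 1) % 4)
    if s then Fin.ofNat 18 (1 + 4 * b + a) else Fin.ofNat 18 (1 + 4 * a + b)

theorem autF_le : ∀ (s p q p' q' : Bool) (x y : T), autF s p q p' q' x ≤ autF s p q p' q' y ↔ x ≤ y := by
  decide +kernel

noncomputable def aut (s p q p' q' : Bool) : T ≃o T where
  toEquiv := Equiv.ofBijective (autF s p q p' q') (Finite.injective_iff_bijective.mp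
    (fun x y e => le_antisymm ((autF_le s p q p' q' x y).mp e.le) ((autF_le s p q p' q' y x).mp e.ge)))
  map_rel_iff' := autF_le s p q p' q' _ _

def dualF (x : T) : T :=
  if x.val = 0 then (17 : Fin 18) else if x.val = 17 then (0 : Fin 18) else
    Fin.ofNat 18 (1 + 4 * (((x.val - 1) / 4 + 1) % 4) + ((x.val - 1) % 4 + 1) % 4)

theorem dualF_le : ∀ x y : T, dualF y ≤ dualF x ↔ x ≤ y := by decide +kernel

theorem T_selfDual : IsSelfDual T :=
  ⟨{ toEquiv := (Equiv.ofBijective dualF (Finite.injective_iff_bijective.mp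
      (fun x y e => le_antisymm ((dualF_le x y).mp e.ge) ((dualF_le y x).mp e.le)))).trans
        OrderDual.toDual
     map_rel_iff' := dualF_le _ _ }⟩

theorem T_bot : trk ⊥ = -1 := by decide +kernel
theorem T_top : trk ⊤ = (3 : ℕ) := by decide +kernel
theorem T_mono : StrictMono trk := by
  have : ∀ x y : T, x < y → trk x < trk y := by decide +kernel
  exact fun x y h => this x y h
theorem T_dense : ∀ F G : T, F < G → trk F + 2 ≤ trk G → ∃ H, F < H ∧ H < G := by
  decide +kernel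

theorem ncard_Ioo (F G : T) :
    (Ioo F G).ncard = (Finset.univ.filter (fun x => F < x ∧ x < G)).card := by
  rw [← Set.ncard_coe_finset]
  congr 1
  ext x
  simp

theorem T_diamond : ∀ F G : T, F < G → trk G = trk F + 2 → (Ioo F G).ncard = 2 := by
  intro F G
  rw [ncard_Ioo]
  revert F G
  decide +kernel

theorem T_squares : ∀ F G : T, F < G → trk G = trk F + 3 → (Ioo F G).ncard = 8 := by
  intro F G
  rw [ncard_Ioo]
  revert F G
  decide +kernel

theorem T_flat : ∀ a b : T, ⊥ ⋖ a → b ⋖ ⊤ → a ≤ b := by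
  have : ∀ a b : T, (∀ c, ⊥ < c → ¬ c < a) → (∀ c, b < c → ¬ c < ⊤) → ⊥ < a → b < ⊤ → a ≤ b := by
    decide +kernel
  intro a b h1 h2
  exact this a b (fun c hc => h1.2 hc) (fun c hc => h2.2 hc) h1.1 h2.1

/-- one step of the search for paths inside a section -/
def grow (F G : T) (S : Finset T) : Finset T :=
  Finset.univ.filter (fun b => F < b ∧ b < G ∧ ∃ a ∈ S, a ≤ b ∨ b ≤ a)

theorem T_conn_aux : ∀ F G : T, F < G → trk F + 3 ≤ trk G → ∀ H : T, F < H → H < G →
    ∀ H' : T, F < H' → H' < G → H' ∈ grow F G (grow F G (grow F G (grow F G {H}))) := by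
  decide +kernel

theorem T_connected : ∀ F G : T, F < G → trk F + 3 ≤ trk G → ∀ H ∈ Ioo F G, ∀ H' ∈ Ioo F G,
    Relation.ReflTransGen (fun a b => a ∈ Ioo F G ∧ b ∈ Ioo F G ∧ (a ≤ b ∨ b ≤ a)) H H' := by
  intro F G h1 h2 H hH H' hH'
  have step : ∀ S : Finset T, (∀ a ∈ S, a ∈ Ioo F G ∧ Relation.ReflTransGen
      (fun a b => a ∈ Ioo F G ∧ b ∈ Ioo F G ∧ (a ≤ b ∨ b ≤ a)) H a) →
      (∀ a ∈ grow F G S, a ∈ Ioo F G ∧ Relation.ReflTransGen
      (fun a b => a ∈ Ioo F G ∧ b ∈ Ioo F G ∧ (a ≤ b ∨ b ≤ a)) H a) := by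
    intro S hS b hb
    rw [grow, Finset.mem_filter] at hb
    obtain ⟨-, b1, b2, a, ha, hab⟩ := hb
    exact ⟨⟨b1, b2⟩, (hS a ha).2.tail ⟨(hS a ha).1, ⟨b1, b2⟩, hab⟩⟩
  refine (step _ (step _ (step _ (step _ ?_))) H'
    (T_conn_aux F G h1 h2 H hH.1 hH.2 H' hH'.1 hH'.2)).2
  intro a ha
  rw [Finset.mem_singleton] at ha
  subst ha
  exact ⟨hH, Relation.ReflTransGen.refl⟩

theorem T_polytope : IsPolytope T 3 trk where
  rk_bot := T_bot
  rk_top := T_top
  rk_strictMono := T_mono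
  flag_card := flag_card_of_dense T_bot T_top T_mono T_dense
  diamond := T_diamond
  connected := T_connected

theorem T_trans_aux : ∀ v e f : T, trk v = 0 → trk e = 1 → trk f = 2 → v ≤ e → e ≤ f →
    ∃ s p q p' q' : Bool, autF s p q p' q' v = (1 : Fin 18) ∧ autF s p q p' q' e = (2 : Fin 18) ∧
      autF s p q p' q' f = (6 : Fin 18) := by
  decide +kernel

theorem T_rank_cases : ∀ x : T, x = ⊥ ∨ trk x = 0 ∨ trk x = 1 ∨ trk x = 2 ∨ x = ⊤ := by
  decide +kernel

theorem T_regular : IsRegularPoset T := by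
  have h := T_polytope
  have key : ∀ Φ : Flag T, ∃ g : T ≃o T, ((1 : Fin 18) : T) ∈ Flag.map g Φ ∧
      ((2 : Fin 18) : T) ∈ Flag.map g Φ ∧ ((6 : Fin 18) : T) ∈ Flag.map g Φ := by
    intro Φ
    obtain ⟨v, hv, rv⟩ := h.exists_rank Φ (i := 0) (by omega) (by omega)
    obtain ⟨e, he, re⟩ := h.exists_rank Φ (i := 1) (by omega) (by omega)
    obtain ⟨f, hf, rf⟩ := h.exists_rank Φ (i := 2) (by omega) (by omega)
    obtain ⟨s, p, q, p', q', h1, h2, h3⟩ := T_trans_aux v e f rv re rf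
      (h.flag_le hv he (by omega)) (h.flag_le he hf (by omega))
    exact ⟨aut s p q p' q', ⟨v, hv, h1⟩, ⟨e, he, h2⟩, ⟨f, hf, h3⟩⟩
  have uniq : ∀ Φ Ψ : Flag T, ((1 : Fin 18) : T) ∈ Φ → ((2 : Fin 18) : T) ∈ Φ →
      ((6 : Fin 18) : T) ∈ Φ → ((1 : Fin 18) : T) ∈ Ψ → ((2 : Fin 18) : T) ∈ Ψ →
      ((6 : Fin 18) : T) ∈ Ψ → ∀ x ∈ Φ, x ∈ Ψ := by
    intro Φ Ψ a1 a2 a3 b1 b2 b3 x hx
    rcases T_rank_cases x with r | r | r | r | r
    · rw [r]; exact Ψ.bot_mem
    · rw [h.flag_eq hx a1 (r.trans (by decide +kernel))]; exact b1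
    · rw [h.flag_eq hx a2 (r.trans (by decide +kernel))]; exact b2
    · rw [h.flag_eq hx a3 (r.trans (by decide +kernel))]; exact b3
    · rw [r]; exact Ψ.top_mem
  intro Φ Ψ
  obtain ⟨g, g1, g2, g3⟩ := key Φ
  obtain ⟨g', g1', g2', g3'⟩ := key Ψ
  have e : Flag.map g Φ = Flag.map g' Ψ :=
    Flag.ext (Subset.antisymm (uniq _ _ g1 g2 g3 g1' g2' g3') (uniq _ _ g1' g2' g3' g1 g2 g3))
  refine ⟨g.trans g'.symm, Flag.ext ?_⟩
  have e' : g '' (Φ : Set T) = g' '' (Ψ : Set T) := congrArg (fun s : Flag T => (s : Set T)) e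
  rw [Flag.coe_map, OrderIso.coe_trans, Set.image_comp, e']
  exact g'.toEquiv.symm_image_image _

end Pool.Agent.Lib.MP_c85533_co
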